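import Pool.Agent.Helper49.KR.St

/-!
# Project KR, module PCN: paths which avoid the zeros of a polynomial
-/

set_option autoImplicit false

namespace Pool.Agent.Helper78.KR

open Pool.Agent.Helper49.KX Pool.Agent.Helper49.KR

theorem hPCN : StPcn := by
  intro P h0 h1
  have hP : P ≠ 0 := by
    rintro rfl
    exact h0 Polynomial.eval_zero
  have hc : ({z : ℂ | P.eval z = 0}).Countable := by
    apply Set.Finite.countable
    refine Set.Finite.subset (Finset.finite_toSet P.roots.toFinset) ?_
    intro z hz
    rw [Finset.mem_coe, Multiset.mem_toFinset, Polynomial.mem_roots hP]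
    exact hz
  have hr : 1 < Module.rank ℝ ℂ := by
    rw [Complex.rank_real_complex]
    norm_num
  have hpc := hc.isPathConnected_compl_of_one_lt_rank hr
  obtain ⟨γ, hγ⟩ := hpc.joinedIn 0 h0 1 h1
  refine ⟨fun t => γ.extend t, γ.continuous_extend, ?_, ?_, ?_⟩
  · intro t ht
    exact γ.extend_of_le_zero ht
  · intro t ht
    exact γ.extend_of_one_le ht
  · intro t
    have h2 : γ.extend t ∈ Set.range γ := by
      rw [← γ.extend_range]
      exact Set.mem_range_self t
    obtain ⟨s, hs⟩ := h2
    show P.eval (γ.extend t) ≠ 0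
    rw [← hs]
    exact hγ s

end Pool.Agent.Helper78.KR
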