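import Pool.Agent.Helper49.KR.St

/-!
# Project KR, module PTH: gluing of paths of data
-/

set_option autoImplicit false

namespace Pool.Agent.Helper78.KR

open Pool.Agent.Helper49.KX Pool.Agent.Helper49.KR

section

variable {E : Type} [AddCommGroup E] [Module ℂ E] [TopologicalSpace E] [ContinuousAdd E]
  [ContinuousSMul ℂ E]

/-- there is a path of data over `[a, b]` with given values near the ends -/
def RR (F : ℝ → E → ℂ) (a : ℝ) (ua : E) (b : ℝ) (ub : E) : Prop :=
  ∃ (u : ℝ → E) (τ : ℝ), 0 < τ ∧ Continuous u ∧ (∀ s, a ≤ s → s ≤ b → F s (u s) ≠ 0) ∧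
    (∀ s, s ≤ a + τ → u s = ua) ∧ ∀ s, b - τ ≤ s → u s = ub

lemma RR.glue {F : ℝ → E → ℂ} {a b c : ℝ} {ua ub uc : E} (hab : a < b) (hbc : b < c)
    (h1 : RR F a ua b ub) (h2 : RR F b ub c uc) : RR F a ua c uc := by
  obtain ⟨u1, τ1, hτ1, hu1, hF1, hl1, hr1⟩ := h1
  obtain ⟨u2, τ2, hτ2, hu2, hF2, hl2, hr2⟩ := h2
  refine ⟨fun s => if s ≤ b then u1 s else u2 s, min (min τ1 τ2) (min ((b - a) / 2) ((c - b) / 2)),
    ?_, ?_, ?_, ?_, ?_⟩
  · exact lt_min (lt_min hτ1 hτ2) (lt_min (by linarith) (by linarith))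
  · apply Continuous.if_le hu1 hu2 continuous_id continuous_const
    intro s hs
    have hs' : s = b := hs
    rw [hs', hr1 b (by linarith), hl2 b (by linarith)]
  · intro s hs1 hs2
    by_cases hsb : s ≤ b
    · simp only [hsb, if_true]
      exact hF1 s hs1 hsb
    · simp only [hsb, if_false]
      push Not at hsb
      exact hF2 s hsb.le hs2
  · intro s hs
    have h3 : min (min τ1 τ2) (min ((b - a) / 2) ((c - b) / 2)) ≤ (b - a) / 2 :=
      le_trans (min_le_right _ _) (min_le_left _ _)
    have h4 : min (min τ1 τ2) (min ((b - a) / 2) ((c - b) / 2)) ≤ τ1 :=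
      le_trans (min_le_left _ _) (min_le_left _ _)
    have hsb : s ≤ b := by linarith
    simp only [hsb, if_true]
    exact hl1 s (by linarith)
  · intro s hs
    have h3 : min (min τ1 τ2) (min ((b - a) / 2) ((c - b) / 2)) ≤ (c - b) / 2 :=
      le_trans (min_le_right _ _) (min_le_right _ _)
    have h4 : min (min τ1 τ2) (min ((b - a) / 2) ((c - b) / 2)) ≤ τ2 :=
      le_trans (min_le_left _ _) (min_le_right _ _)
    have hsb : ¬ s ≤ b := by
      push Not
      linarith
    simp only [hsb, if_false]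
    exact hr2 s (by linarith)

/-- the set of the `s` with `F s v ≠ 0` is open -/
lemma pth_open {F : ℝ → E → ℂ} (hF : PF F) (v : E) : IsOpen {s : ℝ | F s v ≠ 0} := by
  have h1 : Continuous fun s : ℝ => F s v := hF.cont.comp (Continuous.prodMk continuous_id
    continuous_const)
  exact isOpen_ne_fun h1 continuous_const

lemma pth_left (hP : StPta) (hC : StPcn) {F : ℝ → E → ℂ} (hF : PF F) {a m : ℝ} (ham : a < m)
    {ua v : E} (hua : F a ua ≠ 0) (hv : ∀ s, a ≤ s → s ≤ m → F s v ≠ 0) : RR F a ua m v := by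
  obtain ⟨δ, hδ, hball⟩ := Metric.isOpen_iff.1 (pth_open hF ua) a hua
  obtain ⟨η, hη, hη1, hη2⟩ : ∃ η : ℝ, 0 < η ∧ 2 * η < δ ∧ 2 * η ≤ m - a := by
    refine ⟨min (δ / 4) ((m - a) / 2), lt_min (by linarith) (by linarith), ?_, ?_⟩
    · have := min_le_left (δ / 4) ((m - a) / 2)
      linarith
    · have := min_le_right (δ / 4) ((m - a) / 2)
      linarith
  have hnear : ∀ s, a ≤ s → s ≤ a + 2 * η → F s ua ≠ 0 := by
    intro s h1 h2
    apply hball
    rw [Metric.mem_ball, Real.dist_eq, abs_lt]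
    constructor <;> linarith
  obtain ⟨ε0, hε0, H⟩ := hP hC E F hF (a + η) ua v (hnear _ (by linarith) (by linarith))
    (hv _ (by linarith) (by linarith))
  obtain ⟨u, hu, huF, hul, hur⟩ := H (min ε0 η) (lt_min hε0 hη) (min_le_left _ _)
  have hle : min ε0 η ≤ η := min_le_right _ _
  have hpos : 0 < min ε0 η := lt_min hε0 hη
  set ε := min ε0 η with hε
  refine ⟨u, η / 2, by linarith, hu, ?_, ?_, ?_⟩
  · intro s h1 h2
    by_cases h3 : s ≤ a + η - ε
    · rw [hul s (by linarith)]
      exact hnear s h1 (by linarith)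
    · push Not at h3
      by_cases h4 : a + η + ε ≤ s
      · rw [hur s (by linarith)]
        exact hv s h1 h2
      · push Not at h4
        apply huF
        rw [abs_le]
        constructor <;> linarith
  · intro s hs
    exact hul s (by linarith)
  · intro s hs
    exact hur s (by linarith)

lemma pth_right (hP : StPta) (hC : StPcn) {F : ℝ → E → ℂ} (hF : PF F) {m b : ℝ} (hmb : m < b)
    {ub v : E} (hub : F b ub ≠ 0) (hv : ∀ s, m ≤ s → s ≤ b → F s v ≠ 0) : RR F m v b ub := by
  obtain ⟨δ, hδ, hball⟩ := Metric.isOpen_iff.1 (pth_open hF ub) b hub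
  obtain ⟨η, hη, hη1, hη2⟩ : ∃ η : ℝ, 0 < η ∧ 2 * η < δ ∧ 2 * η ≤ b - m := by
    refine ⟨min (δ / 4) ((b - m) / 2), lt_min (by linarith) (by linarith), ?_, ?_⟩
    · have := min_le_left (δ / 4) ((b - m) / 2)
      linarith
    · have := min_le_right (δ / 4) ((b - m) / 2)
      linarith
  have hnear : ∀ s, b - 2 * η ≤ s → s ≤ b → F s ub ≠ 0 := by
    intro s h1 h2
    apply hball
    rw [Metric.mem_ball, Real.dist_eq, abs_lt]
    constructor <;> linarith
  obtain ⟨ε0, hε0, H⟩ := hP hC E F hF (b - η) v ub (hv _ (by linarith) (by linarith))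
    (hnear _ (by linarith) (by linarith))
  obtain ⟨u, hu, huF, hul, hur⟩ := H (min ε0 η) (lt_min hε0 hη) (min_le_left _ _)
  have hle : min ε0 η ≤ η := min_le_right _ _
  have hpos : 0 < min ε0 η := lt_min hε0 hη
  set ε := min ε0 η with hε
  refine ⟨u, η / 2, by linarith, hu, ?_, ?_, ?_⟩
  · intro s h1 h2
    by_cases h3 : s ≤ b - η - ε
    · rw [hul s (by linarith)]
      exact hv s h1 h2
    · push Not at h3
      by_cases h4 : b - η + ε ≤ s
      · rw [hur s (by linarith)]
        exact hnear s (by linarith) h2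
      · push Not at h4
        apply huF
        rw [abs_le]
        constructor <;> linarith
  · intro s hs
    exact hul s (by linarith)
  · intro s hs
    exact hur s (by linarith)

lemma pth_local (hP : StPta) (hC : StPcn) {F : ℝ → E → ℂ} (hF : PF F) {a b : ℝ} (hab : a < b)
    {ua ub v : E} (hua : F a ua ≠ 0) (hub : F b ub ≠ 0) (hv : ∀ s, a ≤ s → s ≤ b → F s v ≠ 0) :
    RR F a ua b ub := by
  have h1 : RR F a ua ((a + b) / 2) v :=
    pth_left hP hC hF (by linarith) hua (fun s h1 h2 => hv s h1 (by linarith))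
  have h2 : RR F ((a + b) / 2) v b ub :=
    pth_right hP hC hF (by linarith) hub (fun s h1 h2 => hv s (by linarith) h2)
  exact RR.glue (by linarith) (by linarith) h1 h2

end

theorem hPTH : StPth := by
  intro hP hC E _ _ _ _ _ F hF α β hαβ hex ua ub hua hub
  show RR F α ua β ub
  obtain ⟨δ, hδ, hleb⟩ := lebesgue_number_lemma_of_metric (s := Set.Icc α β)
    (c := fun v : E => {s : ℝ | F s v ≠ 0}) isCompact_Icc (fun v => pth_open hF v) (by
      intro s hs
      obtain ⟨u, hu⟩ := hex s hs.1 hs.2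
      exact Set.mem_iUnion.2 ⟨u, hu⟩)
  obtain ⟨n, hn⟩ := exists_nat_gt ((β - α) / δ)
  have hn0 : 0 < (n : ℝ) := lt_of_le_of_lt (div_nonneg (by linarith) hδ.le) hn
  have hstep : (β - α) / n < δ := by
    rw [div_lt_iff₀ hn0]
    rw [div_lt_iff₀ hδ] at hn
    linarith
  have hstep0 : 0 < (β - α) / n := div_pos (by linarith) hn0
  have hloc : ∀ a b : ℝ, α ≤ a → b ≤ β → a < b → b - a < δ → ∀ va vb : E, F a va ≠ 0 →
      F b vb ≠ 0 → RR F a va b vb := by
    intro a b h1 h2 h3 h4 va vb hva hvb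
    obtain ⟨v, hv⟩ := hleb a ⟨h1, by linarith⟩
    apply pth_local hP hC hF h3 hva hvb (v := v)
    intro s h5 h6
    apply hv
    rw [Metric.mem_ball, Real.dist_eq, abs_lt]
    constructor <;> linarith
  have hind : ∀ i : ℕ, i + 1 ≤ n → ∀ v : E, F (α + (i + 1 : ℕ) * ((β - α) / n)) v ≠ 0 →
      RR F α ua (α + (i + 1 : ℕ) * ((β - α) / n)) v := by
    have hle : ∀ i : ℕ, i ≤ n → α + (i : ℕ) * ((β - α) / n) ≤ β := by
      intro i hi
      have h1 : (i : ℝ) * ((β - α) / n) ≤ n * ((β - α) / n) :=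
        mul_le_mul_of_nonneg_right (by exact_mod_cast hi) hstep0.le
      have h2 : (n : ℝ) * ((β - α) / n) = β - α := by field_simp
      linarith
    intro i
    induction i with
    | zero =>
      intro hi v hv
      have h1 := hle 1 (by omega)
      apply hloc α _ le_rfl
      · simpa using h1
      · push_cast
        linarith
      · push_cast
        linarith
      · exact hua
      · exact hv
    | succ i ih =>
      intro hi v hv
      have h0 : α ≤ α + (i + 1 : ℕ) * ((β - α) / n) := by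
        have : 0 ≤ ((i + 1 : ℕ) : ℝ) * ((β - α) / n) := by positivity
        linarith
      have h1 := hle (i + 1) (by omega)
      have h2 := hle (i + 1 + 1) hi
      obtain ⟨w, hw⟩ := hex _ h0 h1
      have hlt : α + (i + 1 : ℕ) * ((β - α) / n) < α + (i + 1 + 1 : ℕ) * ((β - α) / n) := by
        push_cast
        nlinarith [hstep0]
      apply RR.glue (b := α + (i + 1 : ℕ) * ((β - α) / n)) (ub := w) _ hlt
      · exact ih (by omega) w hw
      · apply hloc _ _ h0 h2 hlt
        · push_cast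
          linarith
        · exact hw
        · exact hv
      · have : 0 < ((i + 1 : ℕ) : ℝ) * ((β - α) / n) := by positivity
        linarith
  have hn1 : 1 ≤ n := by
    have : 0 < n := by exact_mod_cast hn0
    omega
  have hβ : α + ((n - 1 + 1 : ℕ) : ℝ) * ((β - α) / n) = β := by
    rw [Nat.sub_add_cancel hn1]
    field_simp
    ring
  have h := hind (n - 1) (by omega) ub
  rw [hβ] at h
  exact h hub

end Pool.Agent.Helper78.KR
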